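import Pool.Agent.H83.MW.Gap
import Pool.Agent.H36.MW.Itr

/-! # MP_1fe246_co: levels of windows and their covers (module PU2) -/

set_option autoImplicit false

namespace Pool.Agent.H88.MW

open Pool.Agent.H68.MW Pool.Agent.H83.MW

variable {B : Type} {τ : B → List B} {v : ℤ → B} {c : ℤ → ℤ}

/-- the window `[x, x+N)` lies inside one block of level `L` -/
def InBlk (c : ℤ → ℤ) (L : ℕ) (x : ℤ) (N : ℕ) : Prop := ∃ m, (c^[L]) m ≤ x ∧ x + N ≤ (c^[L]) (m + 1)

/-- `L` is the least level such that the window lies inside a block of level `L` -/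
def Lev (c : ℤ → ℤ) (x : ℤ) (N L : ℕ) : Prop := InBlk c L x N ∧ ∀ L' < L, ¬ InBlk c L' x N

/-- the last `N` letters -/
def sfx {B : Type} (N : ℕ) (w : List B) : List B := w.drop (w.length - N)

/-- the two-sided neighbourhood of radius `N` of the cut number `t` in `τ^(k+1)(y)` -/
def XX {B : Type} (τ : B → List B) (k N : ℕ) (y : B) (t : ℕ) : List B :=
  sfx N (((τ y).take t).flatMap (itr τ k)) ++ (((τ y).drop t).flatMap (itr τ k)).take N

/-! ### lists -/

theorem length_sfx {B : Type} (N : ℕ) (w : List B) : (sfx N w).length = min N w.length := by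
  unfold sfx
  rw [List.length_drop]
  omega

theorem sfx_append_of_le {B : Type} {N : ℕ} (x : List B) {y : List B} (h : N ≤ y.length) :
    sfx N (x ++ y) = sfx N y := by
  unfold sfx
  rw [List.length_append, show x.length + y.length - N = x.length + (y.length - N) by omega,
    List.drop_append]
  simp

theorem sfx_append_of_ge {B : Type} {N : ℕ} (x : List B) {y : List B} (h : y.length ≤ N) :
    sfx N (x ++ y) = sfx (N - y.length) x ++ y := by
  unfold sfx
  rw [List.length_append, List.drop_append_of_le_length (by omega)]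
  congr 2
  omega

theorem sfx_sfx {B : Type} {N M : ℕ} (h : N ≤ M) (w : List B) : sfx N (sfx M w) = sfx N w := by
  unfold sfx
  rw [List.drop_drop, List.length_drop]
  congr 1
  omega

theorem sfx_of_eq {B : Type} {N M : ℕ} (h : N ≤ M) {w w' : List B} (he : sfx M w = sfx M w') :
    sfx N w = sfx N w' := by
  rw [← sfx_sfx h w, he, sfx_sfx h]

theorem take_eq_reverse {B : Type} (N : ℕ) (w : List B) : w.take N = (sfx N w.reverse).reverse := by
  unfold sfx
  rw [List.reverse_drop, List.reverse_reverse, List.length_reverse]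
  rcases le_total N w.length with h | h
  · congr 1
    omega
  · rw [List.take_of_length_le h, List.take_of_length_le (by omega)]

/-! ### windows -/

theorem take_win (V : ℤ → B) (x : ℤ) (n k : ℕ) : (win V x n).take k = win V x (min k n) := by
  rcases le_total k n with h | h
  · obtain ⟨d, rfl⟩ := Nat.exists_eq_add_of_le h
    rw [win_add, Nat.min_eq_left h, List.take_append_of_le_length (by simp),
      List.take_of_length_le (by simp)]
  · rw [Nat.min_eq_right h, List.take_of_length_le (by simpa using h)]

theorem drop_win (V : ℤ → B) (x : ℤ) (n k : ℕ) (h : k ≤ n) :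
    (win V x n).drop k = win V (x + k) (n - k) := by
  obtain ⟨d, rfl⟩ := Nat.exists_eq_add_of_le h
  rw [win_add, List.drop_left' (by simp)]
  congr 1
  omega

theorem sfx_win (V : ℤ → B) (x : ℤ) (n N : ℕ) :
    sfx N (win V x n) = win V (x + n - (min N n : ℕ)) (min N n) := by
  unfold sfx
  rw [length_win, drop_win V x n _ (by omega)]
  congr 1
  · push_cast
    omega
  · omega

theorem win_infix (V : ℤ → B) {x y : ℤ} {n m : ℕ} (h1 : y ≤ x) (h2 : x + n ≤ y + m) :
    win V x n <:+: win V y m := by
  obtain ⟨a, rfl⟩ : ∃ a : ℕ, x = y + a := ⟨(x - y).toNat, by omega⟩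
  obtain ⟨b, rfl⟩ : ∃ b : ℕ, m = a + (n + b) := ⟨m - a - n, by omega⟩
  refine ⟨win V y a, win V (y + a + n) b, ?_⟩
  rw [win_add, win_add, List.append_assoc]

/-! ### existence of the level -/

theorem length_itr_gr (hN : Nrm τ) {x : B} (hx : Gr τ x) (j : ℕ) :
    j + 1 ≤ (itr τ j x).length ∧ ∃ y ∈ itr τ j x, Gr τ y := by
  have hne : ∀ b, τ b ≠ [] := by
    intro b hb
    by_cases h : Gr τ b
    · have := (hN.dich b h).1
      rw [hb] at this
      simp at this
    · unfold Gr at h
      push Not at h
      rw [h] at hb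
      simp at hb
  induction j with
  | zero => exact ⟨by simp, x, by simp, hx⟩
  | succ j ih =>
    obtain ⟨h1, y, hy, hg⟩ := ih
    rw [itr_succ]
    constructor
    · have key : ∀ w : List B, y ∈ w → w.length + 1 ≤ (w.flatMap τ).length := by
        intro w
        induction w with
        | nil => intro h; simp at h
        | cons a w ihw =>
          intro h
          rw [List.flatMap_cons, List.length_append, List.length_cons]
          rcases List.mem_cons.1 h with rfl | h
          · have h2 := (hN.dich y hg).1
            have h3 := length_le_length_flatMap hne w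
            omega
          · have h2 := ihw h
            have h3 := List.length_pos_iff.2 (hne a)
            omega
      have := key _ hy
      omega
    · obtain ⟨_, z, hz, hgz⟩ := hN.dich y hg
      exact ⟨z, List.mem_flatMap.2 ⟨y, hy, hz⟩, hgz⟩

theorem iterate_fixed {p : ℤ} (hp : c p = p) (L : ℕ) : (c^[L]) p = p := by
  induction L with
  | zero => rfl
  | succ L ih => rw [Function.iterate_succ_apply', ih, hp]

/-- every window to the right of a growing letter at a fixed cut has a level -/
theorem exists_lev (hN : Nrm τ) (h : Img τ v v c) {p x : ℤ} (hp : c p = p) (hg : Gr τ (v p))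
    (hx : p ≤ x) (N : ℕ) : ∃ L, Lev c x N L := by
  classical
  have hex : ∃ L, InBlk c L x N := by
    refine ⟨(x + N - p).toNat, p, ?_, ?_⟩
    · rw [iterate_fixed hp]
      exact hx
    · have h1 := (h.power (x + N - p).toNat).step p
      rw [h1, iterate_fixed hp]
      have h2 := (length_itr_gr hN hg (x + N - p).toNat).1
      omega
  exact ⟨Nat.find hex, Nat.find_spec hex, fun L' hL' => Nat.find_min hex hL'⟩

/-! ### the cover -/

/-- **level cover** -/
theorem cover (h : Img τ v v c) {x : ℤ} {N L : ℕ} (hN2 : 2 ≤ N) (hL : Lev c x N L) :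
    ∃ (k : ℕ) (y : B) (t : ℕ), L = k + 1 ∧ 0 < t ∧ t < (τ y).length ∧
      win v x N <:+: XX τ k N y t := by
  classical
  obtain ⟨⟨m, hm1, hm2⟩, hmin⟩ := hL
  cases L with
  | zero =>
    simp only [Function.iterate_zero, id] at hm1 hm2
    omega
  | succ k =>
    have hk := h.power k
    have hck : StrictMono (c^[k]) := hk.strictMono
    rw [Function.iterate_succ_apply] at hm1 hm2
    rw [h.step m] at hm2
    set y := v m with hy
    -- the last level-`k` cut `≤ x`
    have hex : ∃ i : ℕ, x < (c^[k]) (c m + i) := ⟨(τ y).length, by omega⟩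
    obtain ⟨t, ht, htmin⟩ : ∃ t : ℕ, x < (c^[k]) (c m + t) ∧ ∀ i < t, (c^[k]) (c m + i) ≤ x :=
      ⟨Nat.find hex, Nat.find_spec hex, fun i hi => not_lt.1 (Nat.find_min hex hi)⟩
    have ht0 : 0 < t := by
      rcases Nat.eq_zero_or_pos t with h0 | h0
      · subst h0
        simp only [Nat.cast_zero, add_zero] at ht
        omega
      · exact h0
    -- the window straddles the cut
    have hz2 : (c^[k]) (c m + t) < x + N := by
      by_contra hcon
      push Not at hcon
      refine hmin k (by omega) ⟨c m + (t - 1 : ℕ), htmin (t - 1) (by omega), ?_⟩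
      have e : c m + ((t - 1 : ℕ) : ℤ) + 1 = c m + t := by omega
      rw [e]
      exact hcon
    have htl : t < (τ y).length := by
      have h1 : (c^[k]) (c m + t) < (c^[k]) (c m + (τ y).length) := by omega
      have h2 := hck.lt_iff_lt.1 h1
      omega
    refine ⟨k, y, t, rfl, ht0, htl, ?_⟩
    -- the two halves
    have hτ : τ y = win v (c m) (τ y).length := by
      apply List.ext_getElem
      · simp
      · intro i h1 h2
        rw [getElem_win, h.val m i h1]
    have htake : (τ y).take t = win v (c m) t := by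
      conv_lhs => rw [hτ]
      rw [take_win, Nat.min_eq_left htl.le]
    have hdrop : (τ y).drop t = win v (c m + t) ((τ y).length - t) := by
      conv_lhs => rw [hτ]
      rw [drop_win v _ _ _ htl.le]
    have e1 : c m + (t : ℤ) + (((τ y).length - t : ℕ) : ℤ) = c m + (τ y).length := by omega
    unfold XX
    rw [htake, hdrop, hk.win_image, hk.win_image, sfx_win, take_win, e1]
    set z := (c^[k]) (c m + t) with hz
    set z₀ := (c^[k]) (c m) with hz₀
    set z₁ := (c^[k]) (c m + (τ y).length) with hz₁
    have e2 : z₀ + ((z - z₀).toNat : ℤ) = z := by omega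
    rw [e2]
    set n₁ := min N (z - z₀).toNat with hn₁
    set n₂ := min N (z₁ - z).toNat with hn₂
    have e3 : win v (z - (n₁ : ℤ)) n₁ ++ win v z n₂ = win v (z - n₁) (n₁ + n₂) := by
      rw [win_add]
      congr 2
      ring
    rw [e3]
    apply win_infix
    · omega
    · push_cast
      omega

/-! ### stabilisation -/

theorem itr_not_gr {b : B} (hb : ¬ Gr τ b) (k : ℕ) : itr τ k b = [b] := by
  unfold Gr at hb
  push Not at hb
  induction k with
  | zero => rfl
  | succ k ih => rw [itr_succ, ih]; simp [hb]

theorem flatMap_itr_not_gr {w : List B} (hw : ∀ b ∈ w, ¬ Gr τ b) (k : ℕ) :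
    w.flatMap (itr τ k) = w := by
  induction w with
  | nil => rfl
  | cons a w ih =>
    rw [List.flatMap_cons, ih (fun b hb => hw b (by simp [hb])), itr_not_gr (hw a (by simp))]
    rfl

/-- decomposition of `τ x` at its last growing letter -/
theorem split_rf (hN : Nrm τ) {x : B} (hx : Gr τ x) :
    ∃ s r, τ x = s ++ rf τ x :: r ∧ ∀ b ∈ r, ¬ Gr τ b := by
  have h1 := rl_lt hN hx
  set i := (τ x).length - 1 - rl τ x with hi
  have hil : i < (τ x).length := by omega
  refine ⟨(τ x).take i, (τ x).drop (i + 1), ?_, ?_⟩
  · rw [rf_eq hN hx]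
    conv_lhs => rw [← List.take_append_drop i (τ x)]
    rw [List.drop_eq_getElem_cons hil]
  · intro b hb
    obtain ⟨j, hj, rfl⟩ := List.mem_iff_getElem.1 hb
    rw [List.length_drop] at hj
    rw [List.getElem_drop]
    exact not_gr_of_lt_rl (by omega) (by omega)

theorem split_lf (hN : Nrm τ) {x : B} (hx : Gr τ x) :
    ∃ s r, τ x = s ++ lf τ x :: r ∧ ∀ b ∈ s, ¬ Gr τ b := by
  have h1 := ll_lt hN hx
  refine ⟨(τ x).take (ll τ x), (τ x).drop (ll τ x + 1), ?_, ?_⟩
  · rw [lf_eq hN hx]
    conv_lhs => rw [← List.take_append_drop (ll τ x) (τ x)]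
    rw [List.drop_eq_getElem_cons h1]
  · intro b hb
    obtain ⟨j, hj, rfl⟩ := List.mem_iff_getElem.1 hb
    rw [List.length_take] at hj
    rw [List.getElem_take]
    exact not_gr_of_lt_ll (by omega) (by omega)

/-- abstract stabilisation of suffixes -/
theorem sfx_stable_aux (S X : ℕ → List B) (r : List B) (hlen : ∀ k, k + 1 ≤ (S k).length)
    (hrec : ∀ k, S (k + 1) = X k ++ S k ++ r) (k : ℕ) : sfx k (S (k + 1)) = sfx k (S k) := by
  induction k with
  | zero => simp [sfx]
  | succ k ih =>
    rcases Nat.eq_zero_or_pos r.length with h0 | h0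
    · have hr : r = [] := List.length_eq_zero_iff.1 h0
      subst hr
      have h1 : S (k + 1 + 1) = X (k + 1) ++ S (k + 1) := by rw [hrec, List.append_nil]
      rw [h1, sfx_append_of_le _ (by have := hlen (k + 1); omega)]
    · have e1 : sfx (k + 1) (S (k + 1 + 1)) = sfx (k + 1) (S (k + 1) ++ r) := by
        rw [hrec (k + 1), List.append_assoc, sfx_append_of_le _ (by
          have := hlen (k + 1)
          rw [List.length_append]
          omega)]
      have e2 : sfx (k + 1) (S (k + 1)) = sfx (k + 1) (S k ++ r) := by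
        rw [hrec k, List.append_assoc, sfx_append_of_le _ (by
          have := hlen k
          rw [List.length_append]
          omega)]
      rw [e1, e2]
      rcases le_total r.length (k + 1) with hr | hr
      · rw [sfx_append_of_ge _ hr, sfx_append_of_ge _ hr, sfx_of_eq (by omega) ih]
      · rw [sfx_append_of_le _ hr, sfx_append_of_le _ hr]

/-- suffixes of iterates of letters stabilise -/
theorem sfx_letter (hN : Nrm τ) (b : B) {N k : ℕ} (hk : N + 1 ≤ k) :
    sfx N (itr τ (k + 1) b) = sfx N (itr τ k b) := by
  by_cases hb : Gr τ b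
  · -- the stable letter
    obtain ⟨s, r, h1, h2⟩ := split_rf hN hb
    have hg : Gr τ (rf τ b) := gr_rf hN hb
    obtain ⟨s', r', h1', h2'⟩ := split_rf hN hg
    rw [hN.idR b hb] at h1'
    set g := rf τ b with hgdef
    have hS : ∀ k, itr τ (k + 1) g = s'.flatMap (itr τ k) ++ itr τ k g ++ r' := by
      intro k
      rw [itr_succ', h1', List.flatMap_append, List.flatMap_cons, flatMap_itr_not_gr h2',
        List.append_assoc]
    have hst := sfx_stable_aux (fun k => itr τ k g) (fun k => s'.flatMap (itr τ k)) r'
      (fun k => (length_itr_gr hN hg k).1) hS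
    have hB : ∀ k, itr τ (k + 1) b = s.flatMap (itr τ k) ++ (itr τ k g ++ r) := by
      intro k
      rw [itr_succ', h1, List.flatMap_append, List.flatMap_cons, flatMap_itr_not_gr h2]
    obtain ⟨k, rfl⟩ : ∃ k', k = k' + 1 := ⟨k - 1, by omega⟩
    have a1 : sfx N (s.flatMap (itr τ (k + 1)) ++ (itr τ (k + 1) g ++ r)) =
        sfx N (itr τ (k + 1) g ++ r) := sfx_append_of_le _ (by
      have := (length_itr_gr hN hg (k + 1)).1
      rw [List.length_append]
      omega)
    have a2 : sfx N (s.flatMap (itr τ k) ++ (itr τ k g ++ r)) =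
        sfx N (itr τ k g ++ r) := sfx_append_of_le _ (by
      have := (length_itr_gr hN hg k).1
      rw [List.length_append]
      omega)
    rw [hB (k + 1), hB k, a1, a2]
    rcases le_total r.length N with hr | hr
    · rw [sfx_append_of_ge _ hr, sfx_append_of_ge _ hr, sfx_of_eq (by omega) (hst k)]
    · rw [sfx_append_of_le _ hr, sfx_append_of_le _ hr]
  · rw [itr_not_gr hb, itr_not_gr hb]

theorem sfx_word (hN : Nrm τ) (w : List B) : ∀ {N k : ℕ}, N + 1 ≤ k →
    sfx N (w.flatMap (itr τ (k + 1))) = sfx N (w.flatMap (itr τ k)) := by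
  induction w using List.reverseRecOn with
  | nil => intro N k _; rfl
  | append_singleton w b ih =>
    intro N k hk
    simp only [List.flatMap_append, List.flatMap_cons, List.flatMap_nil, List.append_nil]
    by_cases hb : Gr τ b
    · rw [sfx_append_of_le, sfx_append_of_le, sfx_letter hN b hk]
      · have := (length_itr_gr hN hb k).1; omega
      · have := (length_itr_gr hN hb (k + 1)).1; omega
    · rw [itr_not_gr hb, itr_not_gr hb]
      rcases Nat.eq_zero_or_pos N with h0 | h0
      · subst h0
        unfold sfx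
        rw [Nat.sub_zero, Nat.sub_zero, List.drop_length, List.drop_length]
      · have h1 : [b].length ≤ N := by rw [List.length_singleton]; exact h0
        rw [sfx_append_of_ge _ h1, sfx_append_of_ge _ h1, ih (by simp; omega)]

/-- the mirror morphism -/
theorem reverse_itr (τ : B → List B) (k : ℕ) (b : B) :
    itr (fun x => (τ x).reverse) k b = (itr τ k b).reverse := by
  induction k with
  | zero => rfl
  | succ k ih =>
    rw [itr_succ, itr_succ, ih, List.reverse_flatMap]
    rfl

theorem gr_mirror {b : B} : Gr (fun x => (τ x).reverse) b ↔ Gr τ b := by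
  unfold Gr
  simp only [ne_eq, List.reverse_eq_iff, List.reverse_singleton]

theorem nrm_mirror (hN : Nrm τ) : Nrm (fun x => (τ x).reverse) := by
  have hg : ∀ y, Gr (fun x => (τ x).reverse) y ↔ Gr τ y := fun y => gr_mirror
  have hll : ∀ x, ll (fun x => (τ x).reverse) x = rl τ x := by
    intro x
    unfold ll rl
    congr 1
    funext y
    exact decide_eq_decide.2 (hg y)
  have hrl : ∀ x, rl (fun x => (τ x).reverse) x = ll τ x := by
    intro x
    unfold ll rl
    simp only [List.reverse_reverse]
    congr 1
    funext y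
    exact decide_eq_decide.2 (hg y)
  have hlf : ∀ x, lf (fun x => (τ x).reverse) x = rf τ x := by
    intro x
    unfold lf rf
    rw [hll]
  have hrf : ∀ x, rf (fun x => (τ x).reverse) x = lf τ x := by
    intro x
    unfold lf rf
    rw [hrl]
    simp
  refine ⟨fun x hx => ?_, fun x hx => ?_, fun x hx => ?_⟩
  · rw [hg] at hx
    obtain ⟨h1, y, h2, h3⟩ := hN.dich x hx
    exact ⟨by simpa using h1, y, by simpa using h2, (hg y).2 h3⟩
  · rw [hg] at hx
    rw [hlf, hlf, hN.idR x hx]
  · rw [hg] at hx
    rw [hrf, hrf, hN.idL x hx]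

theorem take_word (hN : Nrm τ) (w : List B) {N k : ℕ} (hk : N + 1 ≤ k) :
    (w.flatMap (itr τ (k + 1))).take N = (w.flatMap (itr τ k)).take N := by
  rw [take_eq_reverse, take_eq_reverse]
  have h1 : ∀ k, (w.flatMap (itr τ k)).reverse =
      w.reverse.flatMap (itr (fun x => (τ x).reverse) k) := by
    intro k
    rw [List.reverse_flatMap]
    congr 1
    funext b
    simp only [Function.comp_apply, reverse_itr]
  rw [h1, h1, sfx_word (nrm_mirror hN) w.reverse hk]

/-- **stabilisation of the covers** -/
theorem stable (hN : Nrm τ) {N k : ℕ} (hk : N + 1 ≤ k) (y : B) (t : ℕ) :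
    XX τ k N y t = XX τ (N + 1) N y t := by
  induction k, hk using Nat.le_induction with
  | base => rfl
  | succ k hk ih =>
    rw [← ih]
    unfold XX
    rw [sfx_word hN _ hk, take_word hN _ hk]

end Pool.Agent.H88.MW
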