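import Pool.Agent.H88.MW.Dl
import Pool.Agent.H30.MW.Cnt
import Pool.Agent.H36.MW.Itr
import Pool.Agent.H54.Mor.Bad
import Pool.Agent.H40.MW.BfFam
import Pool.Agent.H68.MW.InhFinal
import Pool.Agent.H95.MW.Red

/-! # MP_1fe246_co: assembly of the final theorem -/

set_option autoImplicit false

namespace Pool.Agent.H88.MW

open Pool.Agent.H68.MW Pool.Agent.H30.MW

/-- statement of C5 (run families) -/
def RunFam : Prop :=
  ∀ {A B : Type} [Fintype A] [Fintype B] {τ : B → List B} {f : B → List A} {v : ℤ → B}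
    {U : ℤ → A} {c c₀ : ℤ → ℤ}, Irred τ → Irred f → Img τ v v c → Img f v U c₀ →
    (∃ L₀ : ℕ, ∀ (x : ℤ) (n : ℕ), L₀ ≤ n → 2 * (n : ℤ) ≤ c (x + n) - c x) → ∀ P : ℕ,
    ∃ C : ℕ, ∀ m : ℕ,
      {L : ℕ | m ≤ L ∧ L < 2 * m ∧ ∃ π ≤ P, ∃ l : ℤ, MaxRun U π l (l + L)}.ncard ≤ C

/-- statement of the pushy case: the number of right special factors is linear -/
def PushyLin : Prop :=
  ∀ {α : Type} [Fintype α] (u : ℕ → α)
    (_ : ¬ ∃ N p : ℕ, 0 < p ∧ ∀ n, N ≤ n → u (n + p) = u n)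
    {B : Type} [Fintype B] {τ : B → List B} {f : B → List (Option α)} {v : ℤ → B}
    {c c₀ : ℤ → ℤ} {z : B}, (∀ j, Irred (itr τ j)) → Irred f →
    (∀ j, Irred (fun b => (itr τ j b).flatMap f)) → Img τ v v c → Img f v (twoSided u) c₀ →
    c 0 = 0 → c₀ 0 = 0 → (∀ b, ∃ i, v i = b) → (∀ i, v i = z ↔ i < 0) → τ z = [z, z] →
    f z = [none] → (∀ m, ∃ j, m < (itr τ j (v 0)).length) → ¬ NonPushy τ v →
    ∃ c C : ℝ, 0 < c ∧ ∀ᶠ n : ℕ in Filter.atTop, c * n ≤ rs (twoSided u) n ∧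
      (rs (twoSided u) n : ℝ) ≤ C * n

/-- the doubling lemma for expanding words -/
theorem dl_core (hrun : RunFam) {A B : Type} [Fintype A] [Fintype B] {τ : B → List B}
    {f : B → List A} {v : ℤ → B} {U : ℤ → A} {c c₀ : ℤ → ℤ} (hτ : Irred τ) (hf : Irred f)
    (h : Img τ v v c) (h₀ : Img f v U c₀)
    (hE : ∃ L₀ : ℕ, ∀ (x : ℤ) (n : ℕ), L₀ ≤ n → 2 * (n : ℤ) ≤ c (x + n) - c x) :
    ∃ C : ℕ, ∀ n m : ℕ, n ≤ m → m ≤ 2 * n → rs U m ≤ rs U n + C ∧ rs U n ≤ rs U m + C :=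
  dl_of_counts U (H54.Mor.bad_subset_BF U) (H54.Mor.rs_dl U)
    (Pool.Agent.H40.MW.bf_families_of_inh hτ hf h h₀ hE (inh hτ h hE)) (hrun hτ hf h h₀ hE)

/-- the non-pushy case of S07589 -/
theorem nonpushy_final (hrun : RunFam) {α : Type} [Fintype α] (u : ℕ → α)
    (hap : ¬ ∃ N p : ℕ, 0 < p ∧ ∀ n, N ≤ n → u (n + p) = u n)
    {B : Type} [Fintype B] {τ : B → List B} {f : B → List (Option α)} {v : ℤ → B}
    {c c₀ : ℤ → ℤ} (hirr : ∀ j, Irred (itr τ j)) (hf : Irred f) (h : Img τ v v c)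
    (h₀ : Img f v (twoSided u) c₀) (hnp : NonPushy τ v) :
    (fun n : ℕ =>
          ((Set.range (fun i : ℕ => fun j : Fin (n + 1) => u (i + j.val))).ncard : ℝ)
            - ((Set.range (fun i : ℕ => fun j : Fin n => u (i + j.val))).ncard : ℝ))
        =Θ[Filter.atTop]
      (fun n : ℕ =>
          ((Set.range (fun i : ℕ => fun j : Fin n => u (i + j.val))).ncard : ℝ) / (n : ℝ)) := by
  obtain ⟨q, hq, L₀, hL₀⟩ := nonpushy_expand h.ne hnp
  have hp := h.power q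
  obtain ⟨C, hC⟩ := dl_core hrun (hirr q) hf hp h₀ ⟨L₀, fun x n hn => hL₀ _ hp x n hn⟩
  exact theta_of_dl u hap C hC

/-- **S07589** from the two remaining modules -/
theorem final (hrun : RunFam) (hpush : PushyLin) :
    ∀ (α : Type) [Fintype α] (u : ℕ → α),
      (∃ σ : α → List α,
        (∀ n i, i < ((fun w : List α => w.flatMap σ)^[n] [u 0]).length →
            ((fun w : List α => w.flatMap σ)^[n] [u 0])[i]? = some (u i)) ∧
        (∀ m, ∃ n, m < ((fun w : List α => w.flatMap σ)^[n] [u 0]).length)) →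
      (∃ N p : ℕ, 0 < p ∧ ∀ n, N ≤ n → u (n + p) = u n) ∨
      (fun n : ℕ =>
          ((Set.range (fun i : ℕ => fun j : Fin (n + 1) => u (i + j.val))).ncard : ℝ)
            - ((Set.range (fun i : ℕ => fun j : Fin n => u (i + j.val))).ncard : ℝ))
        =Θ[Filter.atTop]
      (fun n : ℕ =>
          ((Set.range (fun i : ℕ => fun j : Fin n => u (i + j.val))).ncard : ℝ) / (n : ℝ)) := by
  intro α _ u hu
  by_cases hap : ∃ N p : ℕ, 0 < p ∧ ∀ n, N ≤ n → u (n + p) = u n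
  · exact Or.inl hap
  · right
    obtain ⟨B, hB, τ, f, v, c, c₀, z, h1, h2, h3, h4, h5, h6, h7, h8, h9, h10, h11, h12⟩ := red u hu
    by_cases hnp : NonPushy τ v
    · exact nonpushy_final hrun u hap h1 h2 h4 h5 hnp
    · obtain ⟨k, K, hk, hK⟩ := hpush u hap h1 h2 h3 h4 h5 h6 h7 h8 h9 h10 h11 h12 hnp
      exact theta_of_linear u k K hk hK

end Pool.Agent.H88.MW
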