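import Pool.Agent.H88.MW.Norm
import Pool.Agent.H83.MW.Gap

/-! # MP_1fe246_co: existence of a normalised power -/

set_option autoImplicit false

namespace Pool.Agent.H88.MW

open Pool.Agent.H68.MW Pool.Agent.H83.MW

variable {B : Type}

theorem findIdx_first (p : B → Bool) (s r : List B) (y : B) (hs : ∀ b ∈ s, p b = false)
    (hy : p y = true) : (s ++ y :: r).findIdx p = s.length := by
  induction s with
  | nil => simp [List.findIdx_cons, hy]
  | cons a s ih =>
    have h1 := ih (fun b hb => hs b (by simp [hb]))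
    have h2 := hs a (by simp)
    rw [List.cons_append, List.findIdx_cons, h2, h1]
    simp

theorem lf_of {τ : B → List B} {x y : B} {s r : List B} (h : τ x = s ++ y :: r) (hy : Gr τ y)
    (hs : ∀ b ∈ s, ¬ Gr τ b) : lf τ x = y := by
  classical
  have h1 : ll τ x = s.length := by
    unfold ll
    rw [h]
    exact findIdx_first _ _ _ _ (fun b hb => by simpa using hs b hb) (by simpa using hy)
  unfold lf
  rw [h1, h]
  simp

theorem rf_of {τ : B → List B} {x y : B} {s r : List B} (h : τ x = s ++ y :: r) (hy : Gr τ y)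
    (hr : ∀ b ∈ r, ¬ Gr τ b) : rf τ x = y := by
  classical
  have e : (τ x).reverse = r.reverse ++ y :: s.reverse := by
    rw [h]
    simp
  have h1 : rl τ x = r.reverse.length := by
    unfold rl
    rw [e]
    exact findIdx_first _ _ _ _ (fun b hb => by simpa using hr b (by simpa using hb))
      (by simpa using hy)
  unfold rf
  rw [h1, e]
  simp

/-- **NORM**: a power of an irreducible morphism (all of whose powers are irreducible) is
normalised. The fixed letters of the power are exactly the bounded letters. -/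
theorem exists_nrm [Fintype B] {τ : B → List B} (hirr : ∀ j, Irred (itr τ j)) :
    ∃ q : ℕ, 1 ≤ q ∧ Nrm (itr τ q) ∧ ∀ x, itr τ q x = [x] ↔ Bdd τ x := by
  obtain ⟨q, hq, h1, h2, ⟨F, hF⟩, ⟨L, hL⟩⟩ := norm hirr
  refine ⟨q, hq, ⟨h1, fun x hx => ?_, fun x hx => ?_⟩, h2⟩
  · obtain ⟨a1, a2, s, r, a3, a4⟩ := hF x hx
    obtain ⟨b1, -, s', r', b3, b4⟩ := hF (F x) a1
    have e1 : lf (itr τ q) x = F x := lf_of a3 a1 (fun b hb => not_not.2 (a4 b hb))
    have e2 : lf (itr τ q) (F x) = F (F x) := lf_of b3 b1 (fun b hb => not_not.2 (b4 b hb))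
    rw [e1, e2, a2]
  · obtain ⟨a1, a2, s, r, a3, a4⟩ := hL x hx
    obtain ⟨b1, -, s', r', b3, b4⟩ := hL (L x) a1
    have e1 : rf (itr τ q) x = L x := rf_of a3 a1 (fun b hb => not_not.2 (a4 b hb))
    have e2 : rf (itr τ q) (L x) = L (L x) := rf_of b3 b1 (fun b hb => not_not.2 (b4 b hb))
    rw [e1, e2, a2]

end Pool.Agent.H88.MW
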