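import Pool.Agent.H68.MW.Defs
import Pool.Agent.H87.MW.App

/-! # MP_1fe246_co: from the counts of bad words to the doubling lemma (module C6, part 1) -/

set_option autoImplicit false

namespace Pool.Agent.H88.MW

open Pool.Agent.H68.MW

theorem length_of_mem_BF {A : Type} {U : ℤ → A} {n : ℕ} {w : List A} (h : w ∈ BF U n) :
    w.length = n := by
  obtain ⟨e, e', h1, -, -⟩ := h
  rw [h1, length_win]

/-- the number of non-periodic bad words with lengths in `[n, 2n)` -/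
theorem sum_nonapp {A : Type} (U : ℤ → A) (K P C : ℕ)
    (hsub : ∀ n, Bad U n ⊆ BF U n)
    (hbf : ∀ m : ℕ, {w : List A | ∃ j, m ≤ j ∧ j < 2 * m ∧ w ∈ BF U j ∧ ¬ App K P w}.Finite ∧
      {w : List A | ∃ j, m ≤ j ∧ j < 2 * m ∧ w ∈ BF U j ∧ ¬ App K P w}.ncard ≤ C) (n : ℕ) :
    ∑ j ∈ Finset.Ico n (2 * n), {w | w ∈ Bad U j ∧ ¬ App K P w}.ncard ≤ C := by
  classical
  obtain ⟨hfin, hcard⟩ := hbf n
  set T := {w : List A | ∃ j, n ≤ j ∧ j < 2 * n ∧ w ∈ BF U j ∧ ¬ App K P w} with hT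
  have hj : ∀ j ∈ Finset.Ico n (2 * n), {w | w ∈ Bad U j ∧ ¬ App K P w} ⊆ T := by
    intro j hj w hw
    rw [Finset.mem_Ico] at hj
    exact ⟨j, hj.1, hj.2, hsub j hw.1, hw.2⟩
  have hfj : ∀ j ∈ Finset.Ico n (2 * n), {w | w ∈ Bad U j ∧ ¬ App K P w}.Finite := fun j h =>
    hfin.subset (hj j h)
  -- sum over fibres of the length
  have h1 : ∀ j ∈ Finset.Ico n (2 * n), {w | w ∈ Bad U j ∧ ¬ App K P w}.ncard ≤
      (hfin.toFinset.filter (fun w => w.length = j)).card := by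
    intro j hjm
    rw [Set.ncard_eq_toFinset_card _ (hfj j hjm)]
    apply Finset.card_le_card
    intro w hw
    rw [Set.Finite.mem_toFinset] at hw
    rw [Finset.mem_filter, Set.Finite.mem_toFinset]
    exact ⟨hj j hjm hw, length_of_mem_BF (hsub j hw.1)⟩
  calc ∑ j ∈ Finset.Ico n (2 * n), {w | w ∈ Bad U j ∧ ¬ App K P w}.ncard
      ≤ ∑ j ∈ Finset.Ico n (2 * n), (hfin.toFinset.filter (fun w => w.length = j)).card :=
        Finset.sum_le_sum h1
    _ ≤ hfin.toFinset.card := by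
        rw [← Finset.card_biUnion]
        · apply Finset.card_le_card
          intro w hw
          rw [Finset.mem_biUnion] at hw
          obtain ⟨j, -, hw⟩ := hw
          exact (Finset.mem_filter.1 hw).1
        · intro i _ j _ hij
          rw [Function.onFun, Finset.disjoint_left]
          intro w h1 h2
          exact hij ((Finset.mem_filter.1 h1).2.symm.trans (Finset.mem_filter.1 h2).2)
    _ = T.ncard := (Set.ncard_eq_toFinset_card _ hfin).symm
    _ ≤ C := hcard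

theorem finite_Bad {A : Type} [Fintype A] (U : ℤ → A) (n : ℕ) : (Bad U n).Finite := by
  have h : Bad U n ⊆ {w : List A | w.length = n} := by
    rintro w ⟨⟨e, e', h1, -, -⟩, -⟩
    show w.length = n
    rw [h1, length_win]
  exact (List.finite_length_eq A n).subset h

/-- the doubling lemma from the two counts -/
theorem dl_of_counts {A : Type} [Fintype A] (U : ℤ → A)
    (hsub : ∀ n, Bad U n ⊆ BF U n)
    (hdl : ∀ n m : ℕ, n ≤ m →
      rs U m ≤ rs U n + Fintype.card A * ∑ j ∈ Finset.Ico n m, (Bad U j).ncard ∧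
      rs U n ≤ rs U m + ∑ j ∈ Finset.Ico n m, (Bad U j).ncard)
    (hbf : ∃ K P C : ℕ, ∀ m : ℕ,
      {w : List A | ∃ j, m ≤ j ∧ j < 2 * m ∧ w ∈ BF U j ∧ ¬ App K P w}.Finite ∧
      {w : List A | ∃ j, m ≤ j ∧ j < 2 * m ∧ w ∈ BF U j ∧ ¬ App K P w}.ncard ≤ C)
    (hrun : ∀ P : ℕ, ∃ C : ℕ, ∀ m : ℕ,
      {L : ℕ | m ≤ L ∧ L < 2 * m ∧ ∃ π ≤ P, ∃ l : ℤ, MaxRun U π l (l + L)}.ncard ≤ C) :
    ∃ C : ℕ, ∀ n m : ℕ, n ≤ m → m ≤ 2 * n → rs U m ≤ rs U n + C ∧ rs U n ≤ rs U m + C := by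
  classical
  obtain ⟨K, P, C₁, hC₁⟩ := hbf
  obtain ⟨C₂, hC₂⟩ := hrun P
  obtain ⟨C₃, hC₃⟩ := app_count U K P C₂ hC₂
  have key : ∀ n m : ℕ, m ≤ 2 * n → ∑ j ∈ Finset.Ico n m, (Bad U j).ncard ≤ C₁ + C₃ := by
    intro n m hm
    have h1 : ∑ j ∈ Finset.Ico n m, (Bad U j).ncard ≤
        ∑ j ∈ Finset.Ico n (2 * n), (Bad U j).ncard :=
      Finset.sum_le_sum_of_subset (Finset.Ico_subset_Ico_right hm)
    have h2 : ∀ j, (Bad U j).ncard ≤ {w | w ∈ Bad U j ∧ ¬ App K P w}.ncard +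
        {w | w ∈ Bad U j ∧ App K P w}.ncard := by
      intro j
      have e : Bad U j = {w | w ∈ Bad U j ∧ ¬ App K P w} ∪ {w | w ∈ Bad U j ∧ App K P w} := by
        ext w
        constructor
        · intro hw
          by_cases h : App K P w
          · exact Or.inr ⟨hw, h⟩
          · exact Or.inl ⟨hw, h⟩
        · rintro (h | h)
          · exact h.1
          · exact h.1
      have e2 := Set.ncard_union_le {w | w ∈ Bad U j ∧ ¬ App K P w} {w | w ∈ Bad U j ∧ App K P w}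
      rw [← e] at e2
      exact e2
    have h3 := Finset.sum_le_sum (s := Finset.Ico n (2 * n)) (fun j _ => h2 j)
    rw [Finset.sum_add_distrib] at h3
    have h4 := sum_nonapp U K P C₁ hsub hC₁ n
    have h5 := hC₃ n
    omega
  refine ⟨(Fintype.card A + 1) * (C₁ + C₃), fun n m h1 h2 => ?_⟩
  have h3 := key n m h2
  obtain ⟨h4, h5⟩ := hdl n m h1
  have h6 : Fintype.card A * ∑ j ∈ Finset.Ico n m, (Bad U j).ncard ≤ Fintype.card A * (C₁ + C₃) :=
    Nat.mul_le_mul_left _ h3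
  constructor
  · nlinarith
  · nlinarith

end Pool.Agent.H88.MW
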