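import Pool.Agent.H95.MW.Itr

/-! # MP_1fe246_co: normal form of irreducible morphisms (module NORM, for the pushy case)

If all powers of `τ` are irreducible then, for a suitable power `t` of `τ`, every letter is either
fixed by `t` (bounded letter) or `t x` has length at least two and contains a non-fixed letter, and
the maps first/last non-fixed letter of the image are idempotent. -/

set_option autoImplicit false

namespace Pool.Agent.H88.MW

open Pool.Agent.H68.MW

variable {B : Type}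

theorem length_le_length_flatMap {A : Type} {θ : B → List A} (h : ∀ b, θ b ≠ []) (w : List B) :
    w.length ≤ (w.flatMap θ).length := by
  induction w with
  | nil => simp
  | cons a w ih =>
    have h1 : 0 < (θ a).length := List.length_pos_iff.2 (h a)
    simp only [List.flatMap_cons, List.length_append, List.length_cons]
    omega

theorem length_flatMap_eq_iff {A : Type} {θ : B → List A} (h : ∀ b, θ b ≠ []) (w : List B)
    (he : (w.flatMap θ).length = w.length) : ∀ b ∈ w, (θ b).length = 1 := by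
  induction w with
  | nil => simp
  | cons a w ih =>
    have h1 : 0 < (θ a).length := List.length_pos_iff.2 (h a)
    have h2 := length_le_length_flatMap h w
    simp only [List.flatMap_cons, List.length_append, List.length_cons] at he
    intro b hb
    rcases List.mem_cons.1 hb with rfl | hb
    · omega
    · exact ih (by omega) b hb

/-- bounded letters -/
def Bdd (τ : B → List B) (b : B) : Prop := ∃ M, ∀ j, (itr τ j b).length ≤ M

/-- permuted letters: all iterates have length one -/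
def Prm (τ : B → List B) (b : B) : Prop := ∀ j, (itr τ j b).length = 1

theorem Prm.bdd {τ : B → List B} {b : B} (h : Prm τ b) : Bdd τ b := ⟨1, fun j => (h j).le⟩

theorem itr_mono {τ : B → List B} (hne : ∀ b, τ b ≠ []) (b : B) :
    Monotone (fun j => (itr τ j b).length) :=
  monotone_nat_of_le_succ fun j => by
    show (itr τ j b).length ≤ (itr τ (j + 1) b).length
    rw [itr_succ]
    exact length_le_length_flatMap hne _

/-- the iterates of a bounded letter eventually consist of permuted letters -/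
theorem exists_prm {τ : B → List B} (hne : ∀ b, τ b ≠ []) {b : B} (hb : Bdd τ b) :
    ∃ K, ∀ k, K ≤ k → ∀ c ∈ itr τ k b, Prm τ c := by
  obtain ⟨M, hM⟩ := hb
  -- the length stabilises
  obtain ⟨K, hK⟩ : ∃ K, ∀ j, (itr τ j b).length ≤ (itr τ K b).length := by
    by_contra hcon
    push Not at hcon
    have : ∀ m : ℕ, ∃ j, m ≤ (itr τ j b).length := by
      intro m
      induction m with
      | zero => exact ⟨0, by omega⟩
      | succ m ih =>
        obtain ⟨j, hj⟩ := ih
        obtain ⟨j', hj'⟩ := hcon j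
        exact ⟨j', by omega⟩
    obtain ⟨j, hj⟩ := this (M + 1)
    have := hM j
    omega
  refine ⟨K, fun k hk c hc j => ?_⟩
  have h1 : (itr τ (k + j) b).length = (itr τ k b).length := by
    have a1 : (itr τ K b).length ≤ (itr τ k b).length := itr_mono hne b hk
    have a2 : (itr τ k b).length ≤ (itr τ (k + j) b).length := itr_mono hne b (Nat.le_add_right _ _)
    have a3 := hK (k + j)
    omega
  rw [itr_add] at h1
  exact length_flatMap_eq_iff (fun x => itr_ne_nil hne j x) _ h1 c hc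

theorem Prm.step {τ : B → List B} {b : B} (h : Prm τ b) : ∃ c, τ b = [c] ∧ Prm τ c := by
  have h1 := h 1
  rw [itr_one, List.length_eq_one_iff] at h1
  obtain ⟨c, hc⟩ := h1
  refine ⟨c, hc, fun j => ?_⟩
  have h2 := h (1 + j)
  rw [itr_add, itr_one, hc] at h2
  simpa using h2

theorem Prm.itr {τ : B → List B} {b : B} (h : Prm τ b) (j : ℕ) : ∃ c, itr τ j b = [c] ∧ Prm τ c := by
  induction j with
  | zero => exact ⟨b, rfl, h⟩
  | succ j ih =>
    obtain ⟨c, hc, hc'⟩ := ih
    obtain ⟨d, hd, hd'⟩ := hc'.step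
    exact ⟨d, by rw [itr_succ, hc]; simp [hd], hd'⟩

/-- irreducible morphisms are injective on letters -/
theorem Irred.injective [Fintype B] {A : Type} {θ : B → List A} (h : Irred θ) :
    Function.Injective θ := by
  classical
  intro p q hpq
  by_contra hne
  have := h {c : B // c ≠ q} (fun c => if hc : c = q then [⟨p, hne⟩] else [⟨c, hc⟩])
    (fun c => θ c.1) (by
      intro c
      by_cases hc : c = q
      · simp [hc, hpq]
      · simp [hc])
  have h2 : Fintype.card {c : B // c ≠ q} < Fintype.card B :=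
    Fintype.card_subtype_lt (x := q) (by simp)
  omega

/-- every permuted letter is the `j`-th iterate of a permuted letter -/
theorem prm_surj [Fintype B] {τ : B → List B} (hirr : ∀ j, Irred (Pool.Agent.H68.MW.itr τ j))
    (j : ℕ) {c : B} (hc : Prm τ c) : ∃ b, Prm τ b ∧ itr τ j b = [c] := by
  classical
  let P := {b : B // Prm τ b}
  choose F hF using fun b : P => b.2.itr j
  let G : P → P := fun b => ⟨F b, (hF b).2⟩
  have hinj : Function.Injective G := by
    intro a b hab
    have h1 : F a = F b := congrArg Subtype.val hab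
    have h2 : itr τ j a.1 = itr τ j b.1 := by rw [(hF a).1, (hF b).1, h1]
    exact Subtype.ext (Irred.injective (hirr j) h2)
  have hsurj : Function.Surjective G := Finite.surjective_of_injective hinj
  obtain ⟨b, hb⟩ := hsurj ⟨c, hc⟩
  refine ⟨b.1, b.2, ?_⟩
  rw [(hF b).1]
  have : F b = c := congrArg Subtype.val hb
  rw [this]

/-- bounded letters are permuted -/
theorem bdd_prm [Fintype B] {τ : B → List B} (hirr : ∀ j, Irred (Pool.Agent.H68.MW.itr τ j))
    {b₀ : B} (hb₀ : Bdd τ b₀) : Prm τ b₀ := by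
  classical
  by_contra hcon
  have hne : ∀ b, τ b ≠ [] := by
    have h1 := hirr 1
    intro b hb
    exact h1.ne_nil b (by rw [itr_one]; exact hb)
  -- a uniform exponent
  have hex : ∀ b : B, ∃ K, Bdd τ b → ∀ k, K ≤ k → ∀ c ∈ itr τ k b, Prm τ c := by
    intro b
    by_cases hb : Bdd τ b
    · obtain ⟨K, hK⟩ := exists_prm hne hb
      exact ⟨K, fun _ => hK⟩
    · exact ⟨0, fun h => absurd h hb⟩
  choose K hK using hex
  set j := ∑ b, K b with hj
  have hKj : ∀ b, K b ≤ j := fun b =>
    Finset.single_le_sum (f := K) (fun _ _ => Nat.zero_le _) (Finset.mem_univ b)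
  let C := {b : B // b ≠ b₀}
  -- preimages under the `j`-th iterate
  have hpre : ∀ c : B, ∃ b : B, Prm τ c → Prm τ b ∧ itr τ j b = [c] := by
    intro c
    by_cases hc : Prm τ c
    · obtain ⟨b, hb⟩ := prm_surj hirr j hc
      exact ⟨b, fun _ => hb⟩
    · exact ⟨c, fun h => absurd h hc⟩
  choose ψ hψ using hpre
  have hnn : ∀ c, Prm τ c → ψ c ≠ b₀ := fun c hc h => hcon (h ▸ (hψ c hc).1)
  let g : B → List C := fun b =>
    if h : b = b₀ then (itr τ j b₀).filterMap (fun c => if hc : Prm τ c then some ⟨ψ c, hnn c hc⟩ else none)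
    else [⟨b, h⟩]
  have hfac : ∀ b, itr τ j b = (g b).flatMap (fun c => itr τ j c.1) := by
    intro b
    by_cases h : b = b₀
    · subst h
      have hall : ∀ c ∈ itr τ j b, Prm τ c := hK b hb₀ j (hKj b)
      have hg : g b = (itr τ j b).filterMap
          (fun c => if hc : Prm τ c then some ⟨ψ c, hnn c hc⟩ else none) := by
        simp only [g, dif_pos]
      rw [hg]
      have key : ∀ w : List B, (∀ c ∈ w, Prm τ c) →
          w = (w.filterMap (fun c => if hc : Prm τ c then some (⟨ψ c, hnn c hc⟩ : C) else none)).flatMap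
            (fun c => itr τ j c.1) := by
        intro w
        induction w with
        | nil => intro _; rfl
        | cons a w ih =>
          intro hw
          have ha : Prm τ a := hw a (by simp)
          have h2 := ih (fun c hc => hw c (by simp [hc]))
          rw [List.filterMap_cons]
          simp only [dif_pos ha, List.flatMap_cons]
          rw [(hψ a ha).2, ← h2]
          rfl
      exact key _ hall
    · simp [g, h]
  have h3 := hirr j C g (fun c => itr τ j c.1) hfac
  have h4 : Fintype.card C < Fintype.card B := Fintype.card_subtype_lt (x := b₀) (by simp)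
  omega

/-- a power of a self-map of a finite set is idempotent -/
theorem exists_idem {X : Type} [Finite X] (F : X → X) :
    ∃ q, 1 ≤ q ∧ ∀ m, 1 ≤ m → F^[q * m] = F^[q] := by
  have hninj : ¬ Function.Injective (fun n : ℕ => F^[n]) := not_injective_infinite_finite _
  rw [Function.not_injective_iff] at hninj
  obtain ⟨a, b, hab, hne⟩ := hninj
  wlog hlt : a < b generalizing a b
  · exact this b a hab.symm hne.symm (by omega)
  obtain ⟨p, hp, rfl⟩ : ∃ p, 0 < p ∧ b = a + p := ⟨b - a, by omega, by omega⟩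
  have h1 : ∀ n, a ≤ n → F^[n + p] = F^[n] := by
    intro n hn
    obtain ⟨d, rfl⟩ := Nat.exists_eq_add_of_le hn
    rw [show a + d + p = d + (a + p) by ring, Function.iterate_add, ← hab, ← Function.iterate_add,
      Nat.add_comm d a]
  have h2 : ∀ n k, a ≤ n → F^[n + p * k] = F^[n] := by
    intro n k hn
    induction k with
    | zero => rfl
    | succ k ih =>
      rw [show n + p * (k + 1) = (n + p * k) + p by ring, h1 _ (by omega), ih]
  refine ⟨p * (a + 1), ?_, fun m hm => ?_⟩
  · exact Nat.mul_pos hp (Nat.succ_pos a)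
  · obtain ⟨d, rfl⟩ := Nat.exists_eq_add_of_le hm
    have h3 : a ≤ p * (a + 1) := by nlinarith
    rw [show p * (a + 1) * (1 + d) = p * (a + 1) + p * ((a + 1) * d) by ring]
    exact h2 _ _ h3

/-- first letter of a word satisfying a predicate -/
theorem exists_first {P : B → Prop} (w : List B) (h : ∃ b ∈ w, P b) :
    ∃ s y r, w = s ++ y :: r ∧ P y ∧ ∀ b ∈ s, ¬ P b := by
  classical
  induction w with
  | nil => simp at h
  | cons a w ih =>
    by_cases ha : P a
    · exact ⟨[], a, w, rfl, ha, by simp⟩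
    · obtain ⟨b, hb, hPb⟩ := h
      have hbw : b ∈ w := by
        rcases List.mem_cons.1 hb with rfl | hb
        · exact absurd hPb ha
        · exact hb
      obtain ⟨s, y, r, h1, h2, h3⟩ := ih ⟨b, hbw, hPb⟩
      refine ⟨a :: s, y, r, by rw [h1]; rfl, h2, ?_⟩
      intro c hc
      rcases List.mem_cons.1 hc with rfl | hc
      · exact ha
      · exact h3 c hc

theorem first_unique {P : B → Prop} {s s' r r' : List B} {y y' : B}
    (h : s ++ y :: r = s' ++ y' :: r') (hy : P y) (hy' : P y') (hs : ∀ b ∈ s, ¬ P b)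
    (hs' : ∀ b ∈ s', ¬ P b) : y = y' := by
  rw [List.append_eq_append_iff] at h
  rcases h with ⟨a, h1, h2⟩ | ⟨a, h1, h2⟩
  · cases a with
    | nil => simp at h2; exact h2.1
    | cons b a =>
      simp at h2
      have : y ∈ s' := by rw [h1, ← h2.1]; simp
      exact absurd hy (hs' y this)
  · cases a with
    | nil => simp at h2; exact h2.1.symm
    | cons b a =>
      simp at h2
      have : y' ∈ s := by rw [h1, ← h2.1]; simp
      exact absurd hy' (hs y' this)

theorem exists_last {P : B → Prop} (w : List B) (h : ∃ b ∈ w, P b) :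
    ∃ s y r, w = s ++ y :: r ∧ P y ∧ ∀ b ∈ r, ¬ P b := by
  obtain ⟨b, hb, hPb⟩ := h
  obtain ⟨s, y, r, h1, h2, h3⟩ := exists_first (P := P) w.reverse ⟨b, by simpa using hb, hPb⟩
  refine ⟨r.reverse, y, s.reverse, ?_, h2, fun c hc => h3 c (by simpa using hc)⟩
  have := congrArg List.reverse h1
  simpa using this

theorem iter_first {τ : B → List B} {G : B → Prop} {F₀ : B → B}
    (hstep : ∀ x, G x → ∃ s r, τ x = s ++ F₀ x :: r ∧ G (F₀ x) ∧ ∀ b ∈ s, ¬ G b)
    (hb : ∀ b, ¬ G b → ∀ c ∈ τ b, ¬ G c) (k : ℕ) (x : B) (hx : G x) :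
    ∃ s r, itr τ k x = s ++ F₀^[k] x :: r ∧ G (F₀^[k] x) ∧ ∀ b ∈ s, ¬ G b := by
  induction k with
  | zero => exact ⟨[], [], rfl, hx, by simp⟩
  | succ k ih =>
    obtain ⟨s, r, h1, h2, h3⟩ := ih
    obtain ⟨s', r', h1', h2', h3'⟩ := hstep _ h2
    refine ⟨s.flatMap τ ++ s', r' ++ r.flatMap τ, ?_, ?_, ?_⟩
    · rw [itr_succ, h1, Function.iterate_succ_apply']
      simp [h1']
    · rw [Function.iterate_succ_apply']
      exact h2'
    · intro b hbm
      rcases List.mem_append.1 hbm with hbm | hbm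
      · rw [List.mem_flatMap] at hbm
        obtain ⟨a, ha, hba⟩ := hbm
        exact hb a (h3 a ha) b hba
      · exact h3' b hbm

theorem iter_last {τ : B → List B} {G : B → Prop} {F₀ : B → B}
    (hstep : ∀ x, G x → ∃ s r, τ x = s ++ F₀ x :: r ∧ G (F₀ x) ∧ ∀ b ∈ r, ¬ G b)
    (hb : ∀ b, ¬ G b → ∀ c ∈ τ b, ¬ G c) (k : ℕ) (x : B) (hx : G x) :
    ∃ s r, itr τ k x = s ++ F₀^[k] x :: r ∧ G (F₀^[k] x) ∧ ∀ b ∈ r, ¬ G b := by
  induction k with
  | zero => exact ⟨[], [], rfl, hx, by simp⟩
  | succ k ih =>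
    obtain ⟨s, r, h1, h2, h3⟩ := ih
    obtain ⟨s', r', h1', h2', h3'⟩ := hstep _ h2
    refine ⟨s.flatMap τ ++ s', r' ++ r.flatMap τ, ?_, ?_, ?_⟩
    · rw [itr_succ, h1, Function.iterate_succ_apply']
      simp [h1']
    · rw [Function.iterate_succ_apply']
      exact h2'
    · intro b hbm
      rcases List.mem_append.1 hbm with hbm | hbm
      · exact h3' b hbm
      · rw [List.mem_flatMap] at hbm
        obtain ⟨a, ha, hba⟩ := hbm
        exact hb a (h3 a ha) b hba

/-- bounded letters are fixed by a power, together with all its multiples -/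
theorem bdd_fixed [Fintype B] {τ : B → List B} (hirr : ∀ j, Irred (Pool.Agent.H68.MW.itr τ j)) :
    ∃ q, 1 ≤ q ∧ ∀ m, 1 ≤ m → ∀ b, Bdd τ b → itr τ (q * m) b = [b] := by
  classical
  have hex : ∀ b : B, ∃ c, Prm τ b → τ b = [c] ∧ Prm τ c := by
    intro b
    by_cases h : Prm τ b
    · obtain ⟨c, hc⟩ := h.step
      exact ⟨c, fun _ => hc⟩
    · exact ⟨b, fun h' => absurd h' h⟩
  choose p hp using hex
  have hit : ∀ k b, Prm τ b → itr τ k b = [p^[k] b] ∧ Prm τ (p^[k] b) := by
    intro k b hb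
    induction k with
    | zero => exact ⟨rfl, hb⟩
    | succ k ih =>
      rw [Function.iterate_succ_apply', itr_succ, ih.1]
      simp [(hp _ ih.2).1, (hp _ ih.2).2]
  obtain ⟨q, hq, hidem⟩ := exists_idem p
  refine ⟨q, hq, fun m hm b hb => ?_⟩
  have hb' := bdd_prm hirr hb
  have hfix : p^[q] b = b := by
    have h1 := hit q b hb'
    have h2 := hit q _ h1.2
    have h3 : p^[q] (p^[q] b) = p^[q] b := by
      rw [← Function.iterate_add_apply, show q + q = q * 2 by ring, hidem 2 (by norm_num)]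
    rw [h3] at h2
    exact Irred.injective (hirr q) (h2.1.trans h1.1.symm)
  rw [(hit (q * m) b hb').1, hidem m hm, hfix]

/-- `NORM`. -/
theorem norm [Fintype B] {τ : B → List B} (hirr : ∀ j, Irred (Pool.Agent.H68.MW.itr τ j)) :
    ∃ q : ℕ, 1 ≤ q ∧
      (∀ x, itr τ q x ≠ [x] → 2 ≤ (itr τ q x).length ∧ ∃ y ∈ itr τ q x, itr τ q y ≠ [y]) ∧
      (∀ x, itr τ q x = [x] ↔ Bdd τ x) ∧
      (∃ F : B → B, ∀ x, itr τ q x ≠ [x] → itr τ q (F x) ≠ [F x] ∧ F (F x) = F x ∧
        ∃ s r, itr τ q x = s ++ F x :: r ∧ ∀ b ∈ s, itr τ q b = [b]) ∧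
      (∃ L : B → B, ∀ x, itr τ q x ≠ [x] → itr τ q (L x) ≠ [L x] ∧ L (L x) = L x ∧
        ∃ s r, itr τ q x = s ++ L x :: r ∧ ∀ b ∈ r, itr τ q b = [b]) := by
  classical
  have hne : ∀ b, τ b ≠ [] := by
    have h1 := hirr 1
    intro b hb
    exact h1.ne_nil b (by rw [itr_one]; exact hb)
  -- images of bounded letters
  have hbd : ∀ b, ¬ ¬ Bdd τ b → ∀ c ∈ τ b, ¬ ¬ Bdd τ c := by
    intro b hb c hc
    rw [not_not] at hb ⊢
    obtain ⟨d, hd, hd'⟩ := (bdd_prm hirr hb).step
    rw [hd] at hc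
    rw [List.mem_singleton] at hc
    exact hc ▸ hd'.bdd
  -- images of growing letters
  have hgr : ∀ x, ¬ Bdd τ x → ∃ y ∈ τ x, ¬ Bdd τ y := by
    intro x hx
    by_contra hcon
    push Not at hcon
    apply hx
    refine ⟨(τ x).length + 1, fun j => ?_⟩
    cases j with
    | zero => simp
    | succ j =>
      rw [Nat.add_comm, itr_add, itr_one]
      have : ∀ w : List B, (∀ y ∈ w, Bdd τ y) → (w.flatMap (itr τ j)).length = w.length := by
        intro w
        induction w with
        | nil => intro _; rfl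
        | cons a w ih =>
          intro hw
          rw [List.flatMap_cons, List.length_append, ih (fun y hy => hw y (by simp [hy])),
            bdd_prm hirr (hw a (by simp)) j]
          simp [Nat.add_comm]
      rw [this _ hcon]
      omega
  have hF₀ : ∀ x, ∃ y, ¬ Bdd τ x → ∃ s r, τ x = s ++ y :: r ∧ ¬ Bdd τ y ∧ ∀ b ∈ s, ¬ ¬ Bdd τ b := by
    intro x
    by_cases hx : Bdd τ x
    · exact ⟨x, fun h => absurd hx h⟩
    · obtain ⟨s, y, r, h1, h2, h3⟩ := exists_first (P := fun b => ¬ Bdd τ b) (τ x) (hgr x hx)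
      exact ⟨y, fun _ => ⟨s, r, h1, h2, h3⟩⟩
  have hL₀ : ∀ x, ∃ y, ¬ Bdd τ x → ∃ s r, τ x = s ++ y :: r ∧ ¬ Bdd τ y ∧ ∀ b ∈ r, ¬ ¬ Bdd τ b := by
    intro x
    by_cases hx : Bdd τ x
    · exact ⟨x, fun h => absurd hx h⟩
    · obtain ⟨s, y, r, h1, h2, h3⟩ := exists_last (P := fun b => ¬ Bdd τ b) (τ x) (hgr x hx)
      exact ⟨y, fun _ => ⟨s, r, h1, h2, h3⟩⟩
  choose F₀ hF₀ using hF₀
  choose L₀ hL₀ using hL₀
  obtain ⟨q₁, hq₁, hfix⟩ := bdd_fixed hirr
  obtain ⟨q₂, hq₂, hidF⟩ := exists_idem F₀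
  obtain ⟨q₃, hq₃, hidL⟩ := exists_idem L₀
  -- lengths
  have hex : ∀ x : B, ∃ K, ¬ Bdd τ x → 2 ≤ (itr τ K x).length := by
    intro x
    by_cases hx : Bdd τ x
    · exact ⟨0, fun h => absurd hx h⟩
    · have h2 := hx
      unfold Bdd at h2
      push Not at h2
      obtain ⟨j, hj⟩ := h2 1
      exact ⟨j, fun _ => hj⟩
  choose K hK using hex
  set q₄ := ∑ b, K b + 1 with hq₄
  have hKq : ∀ b, K b ≤ q₄ := fun b => by
    have : K b ≤ ∑ b, K b :=
      Finset.single_le_sum (f := K) (fun _ _ => Nat.zero_le _) (Finset.mem_univ b)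
    omega
  set q := q₁ * q₂ * q₃ * q₄ with hq
  have hq12 : 1 ≤ q₁ * q₂ := Nat.mul_pos hq₁ hq₂
  have hq13 : 1 ≤ q₁ * q₃ := Nat.mul_pos hq₁ hq₃
  have hq23 : 1 ≤ q₂ * q₃ := Nat.mul_pos hq₂ hq₃
  have hq123 : 1 ≤ q₁ * q₂ * q₃ := Nat.mul_pos hq12 hq₃
  have hqpos : 1 ≤ q := Nat.mul_pos hq123 (by omega)
  have hq4le : q₄ ≤ q := by
    rw [hq]
    exact Nat.le_mul_of_pos_left _ hq123
  have hbq : ∀ b, Bdd τ b → itr τ q b = [b] := by
    intro b hb
    have e : q = q₁ * (q₂ * q₃ * q₄) := by rw [hq]; ring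
    rw [e]
    exact hfix _ (Nat.mul_pos hq23 (by omega)) b hb
  have hgq : ∀ x, ¬ Bdd τ x → 2 ≤ (itr τ q x).length := fun x hx =>
    (hK x hx).trans (itr_mono hne x ((hKq x).trans hq4le))
  have hiff : ∀ x, itr τ q x = [x] ↔ Bdd τ x := by
    intro x
    refine ⟨fun h => ?_, hbq x⟩
    by_contra hx
    have := hgq x hx
    rw [h] at this
    simp at this
  have hiff' : ∀ x, itr τ q x ≠ [x] ↔ ¬ Bdd τ x := fun x => not_congr (hiff x)
  have hFq : F₀^[q] = F₀^[q₂] := by
    have e : q = q₂ * (q₁ * q₃ * q₄) := by rw [hq]; ring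
    rw [e]
    exact hidF _ (Nat.mul_pos hq13 (by omega))
  have hLq : L₀^[q] = L₀^[q₃] := by
    have e : q = q₃ * (q₁ * q₂ * q₄) := by rw [hq]; ring
    rw [e]
    exact hidL _ (Nat.mul_pos hq12 (by omega))
  refine ⟨q, hqpos, ?_, hiff, ?_, ?_⟩
  · intro x hx
    rw [hiff'] at hx
    refine ⟨hgq x hx, ?_⟩
    obtain ⟨s, r, h1, h2, -⟩ := iter_first hF₀ hbd q x hx
    exact ⟨_, by rw [h1]; simp, (hiff' _).2 h2⟩
  · refine ⟨F₀^[q], fun x hx => ?_⟩
    rw [hiff'] at hx
    obtain ⟨s, r, h1, h2, h3⟩ := iter_first hF₀ hbd q x hx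
    refine ⟨(hiff' _).2 h2, ?_, s, r, h1, fun b hb => hbq b (not_not.1 (h3 b hb))⟩
    rw [hFq, ← Function.iterate_add_apply, show q₂ + q₂ = q₂ * 2 by ring, hidF 2 (by norm_num)]
  · refine ⟨L₀^[q], fun x hx => ?_⟩
    rw [hiff'] at hx
    obtain ⟨s, r, h1, h2, h3⟩ := iter_last hL₀ hbd q x hx
    refine ⟨(hiff' _).2 h2, ?_, s, r, h1, fun b hb => hbq b (not_not.1 (h3 b hb))⟩
    rw [hLq, ← Function.iterate_add_apply, show q₃ + q₃ = q₃ * 2 by ring, hidL 2 (by norm_num)]

end Pool.Agent.H88.MW
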